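import Mathlib
import Pool.Agent.Helper133.TP7

/-!
# The trace problem for uniform tracial completions has a negative answer

We construct a unital C*-algebra `A` (so `T(A)` is compact), with `T(A)` non-empty, and a trace on
the uniform tracial completion of `A` which is not continuous for the uniform 2-seminorm. The
definitions `T`, `norm2`, `CauchySeqs`, `nullCon`, `Completion`, `cls`, `cnorm2`, `cnorm`,
`IsTrace` and `TwoContinuous` are in the file `Pool.Agent.Helper133.TP1`.
-/

open scoped Topology
open Filter

namespace Pool.Agent.Results.MP_1fb4c7_an.Disproof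

open Pool.Agent.Helper133.TP

/-- The Hilbert space of level `n`. -/
abbrev E (n : ℕ) : Type := EuclideanSpace ℂ (Fin (2 * n + 1))

/-- The parameter space of level `n`. -/
abbrev Y (n : ℕ) : Type := Fin n → Metric.closedBall (0 : E n) 1

/-- The standard basis at level `n`. -/
noncomputable def bs (n : ℕ) : OrthonormalBasis (Fin (2 * n + 1)) ℂ (E n) :=
  EuclideanSpace.basisFun _ ℂ

/-- The data of level `n`. -/
noncomputable def ld (n : ℕ) : LD n (Y n) (E n) (Fin (2 * n + 1)) where
  e := bs n 0
  he := (bs n).norm_eq_one 0
  b := bs n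
  T t := Tt (bs n 0) t
  T_cont v := Tt_continuous _ v
  T_le t v := Tt_norm_le ((bs n).norm_eq_one 0) t v
  T_e t v := inner_e_Tt ((bs n).norm_eq_one 0) t v
  T_hs t := hs_lower _ t (by rw [finrank_euclideanSpace, Fintype.card_fin]) _
  T_kill w hw ε hε := exists_kill ((bs n).norm_eq_one 0) w hw hε

/-- There is a unital C*-algebra `A` whose set of traces `T(A)` is non-empty and (weak*) compact,
and a trace `Φ` on the uniform tracial completion of `A` which is not continuous with respect to
the uniform 2-seminorm, and which is not the extension of any trace of `A`. -/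
theorem result : ∃ (A : Type) (_ : CStarAlgebra A), (T A).Nonempty ∧ IsCompact (T A) ∧
    ∃ Φ : Completion A →ₗ[ℂ] ℂ, IsTrace Φ ∧ ¬ TwoContinuous Φ ∧
      ¬ ∃ τ ∈ T A, ∀ x : CauchySeqs A,
        Tendsto (fun k => τ ((x : ℕ → A) k)) atTop (𝓝 (Φ (cls x))) :=
  main ld (fun i => i.elim0)

end Pool.Agent.Results.MP_1fb4c7_an.Disproof
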